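import Pool.Agent.H219.WhC.Key

/-!
# From matrices over group rings with commutative coefficients to coefficient functions
(adapted from `Pool.Agent.H23R2.Bridge` and `Pool.Agent.H23R2.Det`)
-/

set_option autoImplicit false
set_option linter.unusedSectionVars false

namespace H219.WhC

open Finset
open Pool.Agent.H23R2 (InvPair IsCoc Y sum_Y_eq resS sum_resS)
open scoped Classical

variable {k : Type*} [CommRing k] {I : Type*} [Fintype I] {Γ : Type*} [Group Γ]
  {M : Type*} [AddCommGroup M] [Module k M]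

/-- the coefficient functions of a matrix over the integral group ring -/
def cf (A : Matrix I I (MonoidAlgebra k Γ)) : I → I → Γ → k := fun i j g => (A i j).coeff g

/-- a finite set containing the supports of all the entries -/
noncomputable def supp (A : Matrix I I (MonoidAlgebra k Γ)) : Finset Γ :=
  Finset.univ.biUnion fun i => Finset.univ.biUnion fun j => (A i j).coeff.support

lemma mem_supp (A : Matrix I I (MonoidAlgebra k Γ)) (i j : I) (g : Γ)
    (h : (A i j).coeff g ≠ 0) : g ∈ supp A := by
  unfold supp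
  simp only [Finset.mem_biUnion, Finset.mem_univ, true_and, Finsupp.mem_support_iff]
  exact ⟨i, j, h⟩

lemma mul_coeff_eq (x y : MonoidAlgebra k Γ) (S : Finset Γ) (hx : ∀ g, x.coeff g ≠ 0 → g ∈ S)
    (hy : ∀ g, y.coeff g ≠ 0 → g ∈ S) (g : Γ) :
    (x * y).coeff g = ∑ a ∈ S, ∑ b ∈ S, if a * b = g then x.coeff a * y.coeff b else 0 := by
  rw [MonoidAlgebra.coeff_mul]
  simp only [Finsupp.sum]
  rw [Finset.sum_subset (s₁ := x.coeff.support) (s₂ := S)]
  · apply Finset.sum_congr rfl
    intro a _
    rw [Finset.sum_subset (s₁ := y.coeff.support) (s₂ := S)]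
    · intro b hb
      exact hy b (by simpa using hb)
    · intro b _ hb
      have : y.coeff b = 0 := by simpa using hb
      simp [this]
  · intro a ha
    exact hx a (by simpa using ha)
  · intro a _ ha
    have : x.coeff a = 0 := by simpa using ha
    simp [this]

lemma coeff_sum' {J : Type*} (s : Finset J) (x : J → MonoidAlgebra k Γ) (g : Γ) :
    (∑ j ∈ s, x j).coeff g = ∑ j ∈ s, (x j).coeff g := by
  induction s using Finset.induction_on with
  | empty => simp
  | insert a s ha ih => rw [Finset.sum_insert ha, Finset.sum_insert ha, MonoidAlgebra.coeff_add,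
      Finsupp.add_apply, ih]

lemma one_coeff' (g : Γ) : (1 : MonoidAlgebra k Γ).coeff g = if g = 1 then 1 else 0 := by
  rw [MonoidAlgebra.one_def]
  simp [Finsupp.single_apply, eq_comm]

lemma invPair_half {A B : Matrix I I (MonoidAlgebra k Γ)}
    (hAB : ∀ i i', ∑ j, A i j * B j i' = if i = i' then 1 else 0) (S : Finset Γ)
    (hA : ∀ i j g, (A i j).coeff g ≠ 0 → g ∈ S) (hB : ∀ i j g, (B i j).coeff g ≠ 0 → g ∈ S)
    (i i' : I) (g : Γ) :
    ∑ j, ∑ a ∈ S, ∑ b ∈ S, (if a * b = g then cf A i j a * cf B j i' b else 0)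
    = if i = i' ∧ g = 1 then 1 else 0 := by
  have h := congrArg (fun X : MonoidAlgebra k Γ => X.coeff g) (hAB i i')
  simp only [coeff_sum'] at h
  have h2 : ∀ j, (A i j * B j i').coeff g =
      ∑ a ∈ S, ∑ b ∈ S, (if a * b = g then cf A i j a * cf B j i' b else 0) := by
    intro j
    exact mul_coeff_eq _ _ S (hA i j) (hB j i') g
  simp_rw [h2] at h
  rw [h]
  by_cases hi : i = i'
  · simp [hi, one_coeff']
  · simp [hi]

lemma invPair_units {n : ℕ} (A : (Matrix (Fin n) (Fin n) (MonoidAlgebra k Γ))ˣ) :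
    InvPair (cf A.val) (cf (A⁻¹).val) (supp A.val ∪ supp (A⁻¹).val) := by
  have hA : ∀ i j g, (A.val i j).coeff g ≠ 0 → g ∈ supp A.val ∪ supp (A⁻¹).val :=
    fun i j g hg => Finset.mem_union_left _ (mem_supp _ i j g hg)
  have hB : ∀ i j g, ((A⁻¹).val i j).coeff g ≠ 0 → g ∈ supp A.val ∪ supp (A⁻¹).val :=
    fun i j g hg => Finset.mem_union_right _ (mem_supp _ i j g hg)
  constructor
  · refine fun i i' g => invPair_half (fun i i' => ?_) _ hA hB i i' g
    have := congrFun (congrFun A.mul_inv i) i'
    rw [Matrix.mul_apply, Matrix.one_apply] at this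
    rw [this]
    congr 1
  · refine fun i i' g => invPair_half (fun i i' => ?_) _ hB hA i i' g
    have := congrFun (congrFun A.inv_mul i) i'
    rw [Matrix.mul_apply, Matrix.one_apply] at this
    rw [this]
    congr 1

/-- the pairing of a function of two variables with two matrices -/
noncomputable def pairing {n : ℕ} (f : Γ → Γ → M)
    (B A : Matrix (Fin n) (Fin n) (MonoidAlgebra k Γ)) : M :=
  ∑ i, ∑ j, (B i j).coeff.sum fun g b => (A j i).coeff.sum fun h a => (b * a) • f g h

lemma pairing_eq {n : ℕ} (f : Γ → Γ → M) (B A : Matrix (Fin n) (Fin n) (MonoidAlgebra k Γ))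
    (S : Finset Γ) (hA : ∀ i j g, (A i j).coeff g ≠ 0 → g ∈ S)
    (hB : ∀ i j g, (B i j).coeff g ≠ 0 → g ∈ S) :
    pairing f B A = DsumR (cf A) (cf B) S (fun w x => f (x⁻¹ * w) x) := by
  unfold DsumR
  rw [sum_Y_eq S (fun i j a b => (cf A i j a * cf B j i b) • f (a⁻¹ * (a * b)) a)]
  unfold pairing
  rw [Finset.sum_comm]
  apply Finset.sum_congr rfl
  intro i _
  apply Finset.sum_congr rfl
  intro j _
  rw [Finset.sum_comm]
  simp only [Finsupp.sum, cf]
  rw [Finset.sum_subset (s₁ := (B j i).coeff.support) (s₂ := S)]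
  · apply Finset.sum_congr rfl
    intro b _
    rw [Finset.sum_subset (s₁ := (A i j).coeff.support) (s₂ := S)]
    · apply Finset.sum_congr rfl
      intro a _
      rw [mul_comm ((B j i).coeff b), inv_mul_cancel_left]
    · intro a ha
      exact hA i j a (by simpa using ha)
    · intro a _ ha
      have : (A i j).coeff a = 0 := by simpa using ha
      simp [this]
  · intro b hb
    exact hB j i b (by simpa using hb)
  · intro b _ hb
    have : (B j i).coeff b = 0 := by simpa using hb
    simp [this]


section subgroup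

variable {S : Finset Γ}

/-- restriction of coefficient functions to the subgroup generated by the support -/
def rescR (S : Finset Γ) (A : I → I → Γ → k) :
    I → I → Subgroup.closure (S : Set Γ) → k := fun i j h => A i j h.1

lemma res_half {A B : I → I → Γ → k}
    (h : ∀ i i' g, ∑ j, ∑ a ∈ S, ∑ b ∈ S, (if a * b = g then A i j a * B j i' b else 0)
      = if i = i' ∧ g = 1 then 1 else 0) (i i' : I) (g : Subgroup.closure (S : Set Γ)) :
    ∑ j, ∑ a ∈ resS S, ∑ b ∈ resS S, (if a * b = g then rescR S A i j a * rescR S B j i' b else 0)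
      = if i = i' ∧ g = 1 then 1 else 0 := by
  have h1 : (if i = i' ∧ g = 1 then (1 : k) else 0) = if i = i' ∧ g.1 = 1 then 1 else 0 := by
    congr 1
    rw [← Subgroup.coe_one (Subgroup.closure (S : Set Γ)), ← Subtype.ext_iff]
  rw [h1, ← h i i' g.1]
  apply Finset.sum_congr rfl
  intro j _
  rw [← sum_resS (S := S) (fun a => ∑ b ∈ S, (if a * b = g.1 then A i j a * B j i' b else 0))]
  apply Finset.sum_congr rfl
  intro a _
  rw [← sum_resS (S := S) (fun b => (if a.1 * b = g.1 then A i j a.1 * B j i' b else 0))]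
  apply Finset.sum_congr rfl
  intro b _
  have : (a * b = g) ↔ (a.1 * b.1 = g.1) := by
    rw [Subtype.ext_iff]; rfl
  simp only [this, rescR]

lemma invPair_res {A B : I → I → Γ → k} (h : InvPair A B S) :
    InvPair (rescR S A) (rescR S B) (resS S) := by
  constructor
  · intro i i' g
    convert res_half h.ab i i' g
  · intro i i' g
    convert res_half h.ba i i' g


lemma DsumR_res (A B : I → I → Γ → k)
    (F' : Subgroup.closure (S : Set Γ) → Subgroup.closure (S : Set Γ) → M)
    (F : Γ → Γ → M) (hF : ∀ w x, F' w x = F w.1 x.1) :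
    DsumR (rescR S A) (rescR S B) (resS S) F' = DsumR A B S F := by
  unfold DsumR
  rw [sum_Y_eq S (fun i j a b => (A i j a * B j i b) • F (a * b) a)]
  have h1 : ∀ y : Y I (resS S), (rescR S A y.1 y.2.1 y.2.2.1 * rescR S B y.2.1 y.1 y.2.2.2) •
      F' (y.2.2.1 * y.2.2.2) y.2.2.1 =
      (A y.1 y.2.1 y.2.2.1.1.1 * B y.2.1 y.1 y.2.2.2.1.1) •
        F (y.2.2.1.1.1 * y.2.2.2.1.1) y.2.2.1.1.1 := by
    intro y
    rw [hF]
    rfl
  simp_rw [h1]
  rw [sum_Y_eq (resS S) (fun i j a b => (A i j a.1 * B j i b.1) • F (a.1 * b.1) a.1)]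
  apply Finset.sum_congr rfl
  intro i _
  apply Finset.sum_congr rfl
  intro j _
  rw [← sum_resS (S := S) (fun a => ∑ b ∈ S, (A i j a * B j i b) • F (a * b) a)]
  apply Finset.sum_congr rfl
  intro a _
  rw [← sum_resS (S := S) (fun b => (A i j a.1 * B j i b) • F (a.1 * b) a.1)]

end subgroup

end H219.WhC
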