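import Pool.Agent.H219.WhC.Field

/-!
# The identity class: determinants over the abelianisation
-/

set_option autoImplicit false
set_option linter.unusedSectionVars false

namespace H219.WhC

open Finset
open Pool.Agent.H23R2 (InvPair IsCoc Y sum_Y_eq isCoc_of_hochschild resS finite_dvd_primes jacobi
  coc_one_hom)
open H219.WhR (coc_pow rest rest_coc)
open H219.Wh (DM DM_apply DM_coeff dAdd_single)
open scoped Classical

section unitsQ

variable {K : Type*} [Field K] {Q : Type*} [CommGroup Q] [TwoUniqueProds Q]

/-- units of the group algebra of a group with two unique products are trivial -/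
lemma unit_single (u v : MonoidAlgebra K Q) (h : u * v = 1) :
    ∃ (q : Q) (c : K), u = MonoidAlgebra.single q c := by
  have h1 : (1 : MonoidAlgebra K Q) ≠ 0 := one_ne_zero
  have hu : u ≠ 0 := by
    rintro rfl
    rw [zero_mul] at h
    exact h1 h.symm
  have hv : v ≠ 0 := by
    rintro rfl
    rw [mul_zero] at h
    exact h1 h.symm
  have hu' : 0 < #u.coeff.support := by
    rw [Finset.card_pos, Finsupp.support_nonempty_iff]
    intro h0
    exact hu (by ext q; rw [h0]; rfl)
  have hv' : 0 < #v.coeff.support := by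
    rw [Finset.card_pos, Finsupp.support_nonempty_iff]
    intro h0
    exact hv (by ext q; rw [h0]; rfl)
  have hcard : ¬ 1 < #u.coeff.support * #v.coeff.support := by
    intro hc
    obtain ⟨p1, hp1, p2, hp2, hne, hu1, hu2⟩ := TwoUniqueProds.uniqueMul_of_one_lt_card hc
    have key : ∀ p ∈ u.coeff.support ×ˢ v.coeff.support,
        UniqueMul u.coeff.support v.coeff.support p.1 p.2 → p.1 * p.2 = 1 := by
      intro p hp hup
      rw [Finset.mem_product, Finsupp.mem_support_iff, Finsupp.mem_support_iff] at hp
      have h2 := MonoidAlgebra.coeff_mul_mul_of_uniqueMul hup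
      rw [h, MonoidAlgebra.one_def, MonoidAlgebra.coeff_single, Finsupp.single_apply] at h2
      by_contra hne
      rw [if_neg (fun h3 => hne h3.symm)] at h2
      exact mul_ne_zero hp.1 hp.2 h2.symm
    have e1 := key p1 hp1 hu1
    have e2 := key p2 hp2 hu2
    rw [Finset.mem_product] at hp1 hp2
    have h3 := hu1 hp2.1 hp2.2 (e2.trans e1.symm)
    exact hne (Prod.ext h3.1.symm h3.2.symm)
  have hle : #u.coeff.support ≤ 1 := by
    by_contra hcon
    apply hcard
    calc 1 < #u.coeff.support := by omega
      _ ≤ #u.coeff.support * #v.coeff.support := Nat.le_mul_of_pos_right _ hv'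
  have hone : #u.coeff.support = 1 := by omega
  obtain ⟨q, hq⟩ := Finset.card_eq_one.1 hone
  refine ⟨q, u.coeff q, ?_⟩
  ext x
  rw [MonoidAlgebra.coeff_single, Finsupp.single_apply]
  split_ifs with hx
  · rw [hx]
  · by_contra hne
    have : x ∈ u.coeff.support := Finsupp.mem_support_iff.2 hne
    rw [hq, Finset.mem_singleton] at this
    exact hx this.symm

end unitsQ

section main

variable {K : Type*} [Field K] [CharZero K] {Γ : Type*} [Group Γ] {n : ℕ}

/-- all homomorphisms into the additive group of `K` together -/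
def ev (K : Type*) [Field K] (Γ : Type*) [Group Γ] :
    Γ →* Multiplicative ((Γ →* Multiplicative K) → K) where
  toFun g := Multiplicative.ofAdd fun φ => (φ g).toAdd
  map_one' := by
    apply Multiplicative.toAdd.injective
    funext φ
    show (φ 1).toAdd = 0
    rw [map_one]
    rfl
  map_mul' g h := by
    apply Multiplicative.toAdd.injective
    funext φ
    show (φ (g * h)).toAdd = (φ g).toAdd + (φ h).toAdd
    rw [map_mul]
    rfl

/-- the maximal abelian quotient seen by homomorphisms into `K` -/
abbrev Qt (K : Type*) [Field K] (Γ : Type*) [Group Γ] := (ev K Γ).range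

instance instTU : TwoUniqueProds (Qt K Γ) := by
  have h1 : TwoUniqueSums ((Γ →* Multiplicative K) → K) := inferInstance
  exact TwoUniqueProds.of_injective_mulHom
    ((ev K Γ).range.subtype.toMulHom) Subtype.val_injective inferInstance

/-- projection -/
noncomputable def pj (K : Type*) [Field K] (Γ : Type*) [Group Γ] : Γ →* Qt K Γ :=
  (ev K Γ).rangeRestrict

/-- evaluation -/
def mu (φ : Γ →* Multiplicative K) : Qt K Γ →* Multiplicative K where
  toFun q := Multiplicative.ofAdd (q.1.toAdd φ)
  map_one' := rfl
  map_mul' _ _ := rfl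

lemma mu_pj (φ : Γ →* Multiplicative K) (g : Γ) : mu φ (pj K Γ g) = φ g := rfl

/-- the cocycle attached to a homomorphism -/
noncomputable def fh (φ : Γ →* Multiplicative K) : Γ → Γ → K := fun g h =>
  if pj K Γ (g * h) = 1 then (φ h).toAdd else 0

lemma fh_hoch (φ : Γ →* Multiplicative K) (x y z : Γ) :
    fh φ (x * y) z - fh φ x (y * z) + fh φ (z * x) y = 0 := by
  unfold fh
  have e1 : pj K Γ (x * y * z) = pj K Γ (x * (y * z)) := by rw [mul_assoc]
  have e2 : pj K Γ (z * x * y) = pj K Γ (x * (y * z)) := by
    rw [mul_assoc z x y, map_mul, mul_comm, ← map_mul, mul_assoc]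
  rw [e1, e2]
  split_ifs
  · rw [map_mul, toAdd_mul]; ring
  · ring

lemma fh_one (φ : Γ →* Multiplicative K) (g : Γ) : fh φ 1 g = 0 := by
  unfold fh
  rw [one_mul]
  split_ifs with h
  · have h1 := mu_pj φ g
    rw [h, map_one] at h1
    rw [← h1]
    rfl
  · rfl

lemma bilin (φ : Γ →* Multiplicative K) (b a : MonoidAlgebra K Γ) :
    (MonoidAlgebra.mapDomainRingHom K (pj K Γ) b *
      DM (mu φ) (MonoidAlgebra.mapDomainRingHom K (pj K Γ) a)).coeff 1 =
      b.coeff.sum fun g β => a.coeff.sum fun h α => (β * α) • fh φ g h := by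
  induction b using MonoidAlgebra.induction_linear with
  | zero => simp
  | add b b' hb hb' =>
    rw [map_add, add_mul, MonoidAlgebra.coeff_add, Finsupp.add_apply, hb, hb',
      MonoidAlgebra.coeff_add]
    symm
    refine Finsupp.sum_add_index' ?_ ?_
    · intro g; simp
    · intro g β β'
      simp only [Finsupp.sum]
      rw [← Finset.sum_add_distrib]
      apply Finset.sum_congr rfl
      intro h _
      rw [add_mul, add_smul]
  | single g β =>
    have e1 : (MonoidAlgebra.single g β).coeff.sum (fun g β => a.coeff.sum fun h α =>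
        (β * α) • fh φ g h) = a.coeff.sum fun h α => (β * α) • fh φ g h := by
      rw [MonoidAlgebra.coeff_single]
      exact Finsupp.sum_single_index (by simp)
    rw [e1]
    induction a using MonoidAlgebra.induction_linear with
    | zero => simp
    | add a a' ha ha' =>
      have e2 : ∀ x : MonoidAlgebra K Γ, (MonoidAlgebra.single g β).coeff.sum
          (fun g β => x.coeff.sum fun h α => (β * α) • fh φ g h) =
          x.coeff.sum fun h α => (β * α) • fh φ g h := by
        intro x
        rw [MonoidAlgebra.coeff_single]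
        exact Finsupp.sum_single_index (by simp)
      rw [map_add, map_add, mul_add, MonoidAlgebra.coeff_add, Finsupp.add_apply,
        ha (e2 a), ha' (e2 a'), MonoidAlgebra.coeff_add]
      symm
      refine Finsupp.sum_add_index' ?_ ?_
      · intro h; simp
      · intro h α α'
        rw [mul_add, add_smul]
    | single h α =>
      rw [MonoidAlgebra.coeff_single, Finsupp.sum_single_index (by simp)]
      have h1 : MonoidAlgebra.mapDomainRingHom K (pj K Γ) (MonoidAlgebra.single g β) =
          MonoidAlgebra.single (pj K Γ g) β := by simp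
      have h2 : MonoidAlgebra.mapDomainRingHom K (pj K Γ) (MonoidAlgebra.single h α) =
          MonoidAlgebra.single (pj K Γ h) α := by simp
      rw [h1, h2, DM_apply, dAdd_single, MonoidAlgebra.single_mul_single,
        MonoidAlgebra.coeff_single, Finsupp.single_apply, mu_pj, smul_eq_mul]
      unfold fh
      rw [map_mul]
      split_ifs
      · ring
      · rw [mul_zero]

/-- the trace formula for the cocycles attached to homomorphisms -/
theorem exists_gamma (A : (Matrix (Fin n) (Fin n) (MonoidAlgebra K Γ))ˣ) :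
    ∃ γ : Γ, ∀ φ : Γ →* Multiplicative K,
      pairing (fh φ) (A⁻¹).val A.val = (φ γ).toAdd := by
  set Φ : MonoidAlgebra K Γ →+* MonoidAlgebra K (Qt K Γ) :=
    MonoidAlgebra.mapDomainRingHom K (pj K Γ) with hΦ
  set X : Matrix (Fin n) (Fin n) (MonoidAlgebra K (Qt K Γ)) := A.val.map Φ with hX
  set Z : Matrix (Fin n) (Fin n) (MonoidAlgebra K (Qt K Γ)) := (A⁻¹).val.map Φ with hZ
  have hXZ : X * Z = 1 := by
    have h1 : (Φ.mapMatrix A.val) * (Φ.mapMatrix (A⁻¹).val) = 1 := by
      rw [← map_mul, A.mul_inv, map_one]
    exact h1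
  have hdet : X.det * Z.det = 1 := by rw [← Matrix.det_mul, hXZ, Matrix.det_one]
  obtain ⟨q, c, hq⟩ := unit_single _ _ hdet
  obtain ⟨γ, hγ⟩ := (ev K Γ).rangeRestrict_surjective q
  refine ⟨γ, fun φ => ?_⟩
  have h1 : DM (mu φ) X.det = X.det * (Z * X.map (DM (mu φ))).trace :=
    jacobi (DM (mu φ)) X Z hXZ
  rw [hq, DM_apply, dAdd_single] at h1
  have h2 : MonoidAlgebra.single q ((mu φ q).toAdd * c) =
      MonoidAlgebra.single q c * MonoidAlgebra.single 1 (mu φ q).toAdd := by
    rw [MonoidAlgebra.single_mul_single, mul_one, mul_comm]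
  rw [h2, ← hq] at h1
  have h3 : MonoidAlgebra.single 1 (mu φ q).toAdd = (Z * X.map (DM (mu φ))).trace := by
    have h4 := congrArg (fun x => Z.det * x) h1
    simp only [← mul_assoc, mul_comm Z.det X.det, hdet, one_mul] at h4
    exact h4
  have h5 : (Z * X.map (DM (mu φ))).trace.coeff 1 = pairing (fh φ) (A⁻¹).val A.val := by
    unfold pairing
    rw [Matrix.trace]
    simp only [Matrix.diag_apply, Matrix.mul_apply]
    have h6 : ∀ (t : Finset (Fin n)) (x : Fin n → MonoidAlgebra K (Qt K Γ)),
        (∑ i ∈ t, x i).coeff 1 = ∑ i ∈ t, (x i).coeff 1 := by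
      intro t x
      induction t using Finset.induction_on with
      | empty => simp
      | insert a s ha ih => rw [Finset.sum_insert ha, Finset.sum_insert ha,
          MonoidAlgebra.coeff_add, Finsupp.add_apply, ih]
    rw [h6]
    apply Finset.sum_congr rfl
    intro i _
    rw [h6]
    apply Finset.sum_congr rfl
    intro j _
    exact bilin φ _ _
  rw [← h5, ← h3, MonoidAlgebra.coeff_single, Finsupp.single_eq_same]
  have h7 : pj K Γ γ = q := hγ
  rw [← h7, mu_pj]

/-- **Cyclic one-cocycles over fields of characteristic zero** -/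
theorem field_main (A : (Matrix (Fin n) (Fin n) (MonoidAlgebra K Γ))ˣ) :
    ∃ γ : Γ, (∀ g ∈ grpF A, g ≠ 1 →
        {p : ℕ | p.Prime ∧ ∀ j, 1 ≤ j → ∀ c ∈ grpF A, c * g * c⁻¹ ≠ g ^ p ^ j}.Infinite) →
      ∀ (s : Finset K) (f : Γ → Γ → K), (∀ x y, f x y ∈ Algebra.adjoin ℤ (s : Set K)) →
        (∀ x y z : Γ, f (x * y) z - f x (y * z) + f (z * x) y = 0) → (∀ g, f 1 g = 0) →
        pairing f (A⁻¹).val A.val = f γ⁻¹ γ := by
  obtain ⟨γ, hγ⟩ := exists_gamma A
  refine ⟨γ, ?_⟩
  intro hΓ s f hs hf hf1
  have hcoc := isCoc_of_hochschild f hf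
  let φ : Γ →* Multiplicative K :=
    { toFun := fun x => Multiplicative.ofAdd (f x⁻¹ x)
      map_one' := by
        have h1 := hcoc.one 1
        simp only [inv_one, mul_one] at h1
        rw [inv_one, h1]
        rfl
      map_mul' := by
        intro x y
        have h1 := coc_one_hom hcoc x y
        simp only [mul_one] at h1
        rw [h1]
        rfl }
  have h1 := vanish_units A s f hs hf hf1 hΓ
  have h2 := vanish_units A s (fh φ) (by
    intro x y
    unfold fh
    split_ifs
    · exact hs _ _
    · exact Subalgebra.zero_mem _) (fh_hoch φ) (fh_one φ) hΓ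
  have h3 : (fun g h => if g * h = 1 then f g h else 0) =
      (fun g h => if g * h = 1 then fh φ g h else 0) := by
    funext g h
    by_cases hgh : g * h = 1
    · rw [if_pos hgh, if_pos hgh]
      unfold fh
      rw [hgh, map_one, if_pos rfl]
      have : g = h⁻¹ := eq_inv_of_mul_eq_one_left hgh
      rw [this]
      rfl
    · rw [if_neg hgh, if_neg hgh]
  rw [h1, h3, ← h2, hγ]
  rfl

end main

end H219.WhC
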