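import Pool.Agent.H219.WhC.Van
import Pool.Agent.H219.Wh.Der
import Pool.Agent.H23R2.Fin
import Pool.Agent.H23R2.Der

/-!
# Cyclic one-cocycles and invertible matrices over group rings over fields of characteristic zero
-/

set_option autoImplicit false
set_option linter.unusedSectionVars false

namespace H219.WhC

open Finset
open Pool.Agent.H23R2 (InvPair IsCoc Y sum_Y_eq isCoc_of_hochschild resS finite_dvd_primes jacobi)
open H219.WhR (coc_pow rest rest_coc)
open H219.Wh (DM DM_apply DM_coeff dAdd_single)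
open scoped Classical

lemma invPair_of_injective {R R' : Type*} [CommRing R] [CommRing R'] (ι : R →+* R')
    (hι : Function.Injective ι) {I : Type*} [Fintype I] {Γ : Type*} [Group Γ]
    {A B : I → I → Γ → R} {S : Finset Γ}
    (h : InvPair (fun i j g => ι (A i j g)) (fun i j g => ι (B i j g)) S) : InvPair A B S := by
  constructor
  · intro i i' g
    apply hι
    have := h.ab i i' g
    simp only [map_sum, apply_ite ι, map_mul, map_zero, map_one]
    exact this
  · intro i i' g
    apply hι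
    have := h.ba i i' g
    simp only [map_sum, apply_ite ι, map_mul, map_zero, map_one]
    exact this

section field

variable {K : Type*} [Field K] [CharZero K] {Γ : Type*} [Group Γ] {n : ℕ}

/-- the support of an invertible matrix and its inverse -/
noncomputable def suppF (A : (Matrix (Fin n) (Fin n) (MonoidAlgebra K Γ))ˣ) : Finset Γ :=
  supp A.val ∪ supp (A⁻¹).val

/-- the coefficients -/
noncomputable def coefs (A : (Matrix (Fin n) (Fin n) (MonoidAlgebra K Γ))ˣ) : Finset K :=
  (univ : Finset (Fin n)).biUnion fun i => (univ : Finset (Fin n)).biUnion fun j =>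
    (suppF A).image (fun g => cf A.val i j g) ∪ (suppF A).image (fun g => cf (A⁻¹).val i j g)

/-- the finitely generated subgroup of an invertible matrix -/
def grpF (A : (Matrix (Fin n) (Fin n) (MonoidAlgebra K Γ))ˣ) : Subgroup Γ :=
  Subgroup.closure ((suppF A : Finset Γ) : Set Γ)

lemma grpF_fg (A : (Matrix (Fin n) (Fin n) (MonoidAlgebra K Γ))ˣ) : (grpF A).FG := ⟨_, rfl⟩

lemma cf_mem (A : (Matrix (Fin n) (Fin n) (MonoidAlgebra K Γ))ˣ) (s : Finset K) (i j : Fin n)
    (g : Γ) : cf A.val i j g ∈ Algebra.adjoin ℤ ((s ∪ coefs A : Finset K) : Set K) := by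
  by_cases hg : g ∈ suppF A
  · apply Algebra.subset_adjoin
    rw [Finset.mem_coe, Finset.mem_union]
    right
    unfold coefs
    simp only [Finset.mem_biUnion, Finset.mem_univ, true_and, Finset.mem_union, Finset.mem_image]
    exact ⟨i, j, Or.inl ⟨g, hg, rfl⟩⟩
  · have : cf A.val i j g = 0 := by
      by_contra hne
      exact hg (Finset.mem_union_left _ (mem_supp _ i j g hne))
    rw [this]
    exact Subalgebra.zero_mem _

lemma cf_mem' (A : (Matrix (Fin n) (Fin n) (MonoidAlgebra K Γ))ˣ) (s : Finset K) (i j : Fin n)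
    (g : Γ) : cf (A⁻¹).val i j g ∈ Algebra.adjoin ℤ ((s ∪ coefs A : Finset K) : Set K) := by
  by_cases hg : g ∈ suppF A
  · apply Algebra.subset_adjoin
    rw [Finset.mem_coe, Finset.mem_union]
    right
    unfold coefs
    simp only [Finset.mem_biUnion, Finset.mem_univ, true_and, Finset.mem_union, Finset.mem_image]
    exact ⟨i, j, Or.inr ⟨g, hg, rfl⟩⟩
  · have : cf (A⁻¹).val i j g = 0 := by
      by_contra hne
      exact hg (Finset.mem_union_right _ (mem_supp _ i j g hne))
    rw [this]
    exact Subalgebra.zero_mem _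

/-- only the pairs with product `1` contribute -/
theorem vanish_units (A : (Matrix (Fin n) (Fin n) (MonoidAlgebra K Γ))ˣ) (s : Finset K)
    (f : Γ → Γ → K) (hs : ∀ x y, f x y ∈ Algebra.adjoin ℤ (s : Set K))
    (hf : ∀ x y z : Γ, f (x * y) z - f x (y * z) + f (z * x) y = 0) (hf1 : ∀ g, f 1 g = 0)
    (hΓ : ∀ g ∈ grpF A, g ≠ 1 →
      {p : ℕ | p.Prime ∧ ∀ j, 1 ≤ j → ∀ c ∈ grpF A, c * g * c⁻¹ ≠ g ^ p ^ j}.Infinite) :
    pairing f (A⁻¹).val A.val =
      pairing (fun g h => if g * h = 1 then f g h else 0) (A⁻¹).val A.val := by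
  set S : Finset Γ := suppF A with hS
  have hA : ∀ i j g, (A.val i j).coeff g ≠ 0 → g ∈ S := fun i j g hg =>
    Finset.mem_union_left _ (mem_supp _ i j g hg)
  have hB : ∀ i j g, ((A⁻¹).val i j).coeff g ≠ 0 → g ∈ S :=
    fun i j g hg => Finset.mem_union_right _ (mem_supp _ i j g hg)
  rw [pairing_eq f (A⁻¹).val A.val S hA hB, pairing_eq _ (A⁻¹).val A.val S hA hB]
  have hpair : InvPair (cf A.val) (cf (A⁻¹).val) S := invPair_units A
  have hcoc := isCoc_of_hochschild f hf
  let R₀ : Subalgebra ℤ K := Algebra.adjoin ℤ ((s ∪ coefs A : Finset K) : Set K)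
  let a0 : Fin n → Fin n → Γ → R₀ := fun i j g => ⟨cf A.val i j g, cf_mem A s i j g⟩
  let b0 : Fin n → Fin n → Γ → R₀ := fun i j g => ⟨cf (A⁻¹).val i j g, cf_mem' A s i j g⟩
  have hmono : ∀ x ∈ Algebra.adjoin ℤ (s : Set K), x ∈ R₀ := fun x hx =>
    Algebra.adjoin_mono (by intro y hy; simp only [Finset.coe_union]; exact Or.inl hy) hx
  have hpair0 : InvPair a0 b0 S :=
    invPair_of_injective (R₀.val : R₀ →+* K) Subtype.val_injective hpair
  let FΓ : Γ → Γ → R₀ := fun w x => ⟨f (x⁻¹ * w) x, hmono _ (hs _ _)⟩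
  let F0 : Subgroup.closure (S : Set Γ) → Subgroup.closure (S : Set Γ) → R₀ :=
    fun w x => FΓ w.1 x.1
  have hF0 : IsCoc F0 := by
    intro w x y
    apply Subtype.ext
    exact hcoc w.1 x.1 y.1
  have hb0 : ∀ w, F0 w w = 0 := by
    intro w
    apply Subtype.ext
    show f (w.1⁻¹ * w.1) w.1 = 0
    rw [inv_mul_cancel]
    exact hf1 _
  have htf : ∀ (p : ℕ), p.Prime → ∀ y : R₀, p • y = 0 → y = 0 := by
    intro p hp y hy
    apply Subtype.ext
    have h1 := congrArg Subtype.val hy
    have h2 : (p : K) * y.1 = 0 := by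
      rw [← nsmul_eq_mul]
      exact h1
    rcases mul_eq_zero.1 h2 with h3 | h3
    · exact absurd (by exact_mod_cast h3) hp.ne_zero
    · exact h3
  have hmain := cyc_mainC (invPair_res hpair0) hF0 hb0 (by
    rintro g hg _ x hx
    have hx' : x.1 ≠ 0 := fun h0 => hx (Subtype.ext h0)
    have hfin := (finite_dvd_primes (s ∪ coefs A) x.1 hx').union (Set.finite_singleton 2)
    have hinf := hΓ g.1 g.2 (fun h0 => hg (Subtype.ext h0))
    obtain ⟨p, hp, hpn⟩ := (hinf.sdiff hfin).nonempty
    refine ⟨p, hp.1, ?_, htf p hp.1, ?_, ?_⟩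
    · rintro rfl
      exact hpn (Or.inr rfl)
    · intro y hy
      apply hpn
      left
      refine ⟨hp.1, y.1, y.2, ?_⟩
      rw [← hy, ← nsmul_eq_mul]
      rfl
    · intro j hj c hc
      exact hp.2 j hj c.1 c.2 (by simpa using congrArg Subtype.val hc))
  have hrest : ∀ w x, rest (ConjClasses.mk 1) F0 w x =
      (fun w x : Γ => if w = 1 then FΓ w x else 0) w.1 x.1 := by
    intro w x
    unfold rest
    by_cases hw : w = 1
    · rw [hw]
      rw [if_pos rfl]
      show _ = if ((1 : Subgroup.closure (S : Set Γ)) : Γ) = 1 then _ else _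
      rw [if_pos (by simp)]
    · rw [if_neg]
      · have hw' : ¬ (w : Γ) = 1 := fun h0 => hw (Subtype.ext h0)
        show (0 : R₀) = if (w : Γ) = 1 then FΓ w.1 x.1 else 0
        rw [if_neg hw']
      · rw [ConjClasses.mk_eq_mk_iff_isConj, isConj_one_left]
        exact fun hh => hw hh
  rw [DsumR_res (S := S) a0 b0 F0 FΓ (fun w x => rfl),
    DsumR_res (S := S) a0 b0 (rest (ConjClasses.mk 1) F0)
      (fun w x : Γ => if w = 1 then FΓ w x else 0) hrest] at hmain
  have hcoe : ∀ G : Γ → Γ → R₀, (DsumR a0 b0 S G : R₀).1 =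
      DsumR (cf A.val) (cf (A⁻¹).val) S (fun w x => (G w x).1) := by
    intro G
    unfold DsumR
    have h1 : ∀ (t : Finset (Y (Fin n) S)) (h : Y (Fin n) S → R₀),
        (∑ y ∈ t, h y : R₀).1 = ∑ y ∈ t, (h y).1 := by
      intro t h
      exact map_sum R₀.val h t
    rw [h1]
    rfl
  have h2 := congrArg Subtype.val hmain
  rw [hcoe, hcoe] at h2
  refine h2.trans ?_
  congr 1
  funext w x
  have e1 : (x⁻¹ * w * x = 1) ↔ w = 1 := by
    constructor
    · intro h
      have h3 : w = x * (x⁻¹ * w * x) * x⁻¹ := by group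
      rw [h3, h]
      group
    · rintro rfl
      simp
  show (if w = 1 then FΓ w x else 0 : R₀).1 = if x⁻¹ * w * x = 1 then f (x⁻¹ * w) x else 0
  by_cases hw : w = 1
  · rw [if_pos hw, if_pos (e1.2 hw)]
  · rw [if_neg hw, if_neg (fun h => hw (e1.1 h))]
    rfl

end field

end H219.WhC
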