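import Pool.Agent.H23R2.Det

/-!
# The Frobenius relation modulo `p` with coefficients in a commutative ring
(adapted from `Pool.Agent.H23R2.Key`, where the coefficients are in `ZMod p`)
-/

set_option autoImplicit false
set_option linter.unusedSectionVars false

namespace H219.WhC

open Finset
open Pool.Agent.H23R2 hiding Dsum Gf total_sum sum_PsiU sum_PsiV frobenius_relation NC_of_T
  NC_T_of_U swp swpi swpi_swp swp_swpi swp_shift swpi_shift NC_swp wt_swp U_swp
open scoped Classical

section main

variable {I : Type*} [Fintype I] {Γ : Type*} [Group Γ] {p : ℕ} [Fact p.Prime]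
  {M : Type*} [AddCommGroup M] [Module (ZMod p) M] {S : Finset Γ}
  {R : Type*} [CommRing R] [Module R M]

/-- the pairing -/
def DsumR (A B : I → I → Γ → R) (S : Finset Γ) (F : Γ → Γ → M) : M :=
  ∑ y : Y I S, (A y.1 y.2.1 y.2.2.1 * B y.2.1 y.1 y.2.2.2) • F (y.2.2.1 * y.2.2.2) y.2.2.1

/-- the summand -/
def Gf (F : Γ → Γ → M) (o : ZMod p → Y I S) : M := F (W (U o) 0) (la o 0)

lemma total_sum {A B : I → I → Γ → R} (h : InvPair A B S) (F : Γ → Γ → M) :
    ∑ o : ZMod p → Y I S, wt A B o • Gf F o = DsumR A B S F := by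
  unfold DsumR
  rw [← Finset.sum_fiberwise (s := Finset.univ) (g := fun o : ZMod p → Y I S => o 0)]
  apply Finset.sum_congr rfl
  intro y _
  set s : Finset (ZMod p → Y I S) := Finset.univ.filter (fun o => o 0 = y) with hs
  set tt : Finset (ZMod p → I × Γ) := insert (t0 y) (s.image T) with htt
  rw [← Finset.sum_fiberwise_of_maps_to (s := s) (t := tt) (g := T)
    (fun o ho => Finset.mem_insert_of_mem (Finset.mem_image_of_mem _ ho))]
  have key : ∀ t ∈ tt, ∑ o ∈ s with T o = t, wt A B o • Gf F o =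
      (if t = t0 y then A y.1 y.2.1 y.2.2.1 * B y.2.1 y.1 y.2.2.2 else 0) •
        F (W (fun k => (t k).2) 0) (y.2.2.1 : Γ) := by
    intro t ht
    have hty : t 0 = (y.1, (y.2.2.1 : Γ) * (y.2.2.2 : Γ)) := by
      rw [htt, Finset.mem_insert] at ht
      rcases ht with ht | ht
      · rw [ht]; simp [t0]
      · rw [Finset.mem_image] at ht
        obtain ⟨o, ho, rfl⟩ := ht
        rw [hs, Finset.mem_filter] at ho
        rw [← ho.2]; rfl
    rw [← sum_wt_head h y t hty, Finset.sum_smul]
    rw [hs, Finset.filter_filter]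
    apply Finset.sum_congr rfl
    intro o ho
    rw [Finset.mem_filter] at ho
    obtain ⟨_, h0, hT⟩ := ho
    congr 1
    unfold Gf
    rw [← hT]
    congr 1
    simp [la, h0]
  rw [Finset.sum_congr rfl key]
  rw [Finset.sum_eq_single_of_mem (t0 y) (Finset.mem_insert_self _ _)]
  · rw [if_pos rfl, W_t0]
  · intro t _ ht
    rw [if_neg ht, zero_smul]

lemma NC_of_T (o : ZMod p → Y I S) (h : NC (T o)) : NC o := by
  by_contra hc
  rw [not_NC_iff] at hc
  obtain ⟨k, hk⟩ := h
  apply hk
  have : T o k = T o 0 := by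
    simp only [T, U, la, lb, hc k]
  exact this

lemma NC_T_of_U (o : ZMod p → Y I S) (h : NC (U o)) : NC (T o) := by
  obtain ⟨k, hk⟩ := h
  exact ⟨k, fun hh => hk (congrArg Prod.snd hh)⟩

/-- the sum over orbits of the contributions of the target sequences vanishes -/
lemma sum_PsiU {A B : I → I → Γ → R} (h : InvPair A B S) (hp : p ≠ 2)
    {F : Γ → Γ → M} (hF : IsCoc F) (hb : ∀ w, F w w = 0)
    (l : (ZMod p → Y I S) → ZMod p) (hl : ∀ o, NC o → ∀ c, l (shift c o) = l o + c) :
    ∑ o : ZMod p → Y I S with (NC o ∧ l o = 0), wt A B o • Psi F (U o) = 0 := by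
  obtain ⟨κ, hκ⟩ := exists_phase (p := p) (I × Γ)
  have h1 : ∑ o : ZMod p → Y I S with (NC o ∧ l o = 0), wt A B o • Psi F (U o) =
      ∑ o : ZMod p → Y I S with (NC (T o) ∧ l o = 0), wt A B o • Psi F (U o) := by
    symm
    apply Finset.sum_subset
    · intro o ho
      simp only [Finset.mem_filter, Finset.mem_univ, true_and] at ho ⊢
      exact ⟨NC_of_T o ho.1, ho.2⟩
    · intro o ho ho'
      simp only [Finset.mem_filter, Finset.mem_univ, true_and, not_and] at ho ho'
      rw [Psi_const hp F (U o), smul_zero]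
      intro hU
      exact ho' (NC_T_of_U o hU) ho.2
  rw [h1]
  rw [section_change (fun o : ZMod p → Y I S => NC (T o))
    (fun o ho c => by rw [T_shift]; exact NC_shift_of c _ ho) l (fun o => κ (T o))
    (fun o ho c => hl o (NC_of_T o ho) c)
    (fun o ho c => by rw [T_shift]; exact hκ _ ho c)
    (fun o => wt A B o • Psi F (U o))
    (fun o _ c => by rw [wt_shift, U_shift, Psi_shift hF hb])]
  set s : Finset (ZMod p → Y I S) := Finset.univ.filter (fun o => NC (T o) ∧ κ (T o) = 0) with hs
  rw [← Finset.sum_fiberwise_of_maps_to (s := s) (t := s.image T) (g := T)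
    (fun o ho => Finset.mem_image_of_mem _ ho)]
  apply Finset.sum_eq_zero
  intro t ht
  rw [Finset.mem_image] at ht
  obtain ⟨o', ho', rfl⟩ := ht
  rw [hs, Finset.mem_filter] at ho'
  have h2 : ∑ o ∈ s with T o = T o', wt A B o • Psi F (U o) =
      (∑ o : ZMod p → Y I S with T o = T o', wt A B o) • Psi F (U o') := by
    rw [Finset.sum_smul]
    rw [hs, Finset.filter_filter]
    apply Finset.sum_congr
    · ext o
      simp only [Finset.mem_filter, Finset.mem_univ, true_and]
      constructor
      · exact fun hh => hh.2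
      · intro hh
        rw [hh]; exact ⟨ho'.2, rfl⟩
    · intro o ho
      rw [Finset.mem_filter] at ho
      have : U o = U o' := by
        funext k
        exact congrArg Prod.snd (congrFun ho.2 k)
      rw [this]
  rw [h2, sum_wt_fibre_NC h _ ho'.2.1, zero_smul]

/-- exchange the roles of the two matrices -/
def swp (o : ZMod p → Y I S) : ZMod p → Y I S := fun k =>
  ((o k).2.1, (o (k + 1)).1, (o k).2.2.2, (o (k + 1)).2.2.1)

/-- the inverse exchange -/
def swpi (o : ZMod p → Y I S) : ZMod p → Y I S := fun k =>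
  ((o (k - 1)).2.1, (o k).1, (o (k - 1)).2.2.2, (o k).2.2.1)

lemma swpi_swp (o : ZMod p → Y I S) : swpi (swp o) = o := by
  funext k
  simp [swpi, swp]

lemma swp_swpi (o : ZMod p → Y I S) : swp (swpi o) = o := by
  funext k
  simp [swpi, swp]

lemma swp_shift (c : ZMod p) (o : ZMod p → Y I S) : swp (shift c o) = shift c (swp o) := by
  funext k
  simp only [swp, shift_apply]
  rw [show k + 1 + c = k + c + 1 by ring]

lemma swpi_shift (c : ZMod p) (o : ZMod p → Y I S) : swpi (shift c o) = shift c (swpi o) := by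
  rw [← swpi_swp (shift c (swpi o)), swp_shift, swp_swpi]

lemma NC_swp (o : ZMod p → Y I S) : NC (swp o) ↔ NC o := by
  have h1 : ∀ o : ZMod p → Y I S, ¬ NC o → ¬ NC (swp o) := by
    intro o ho
    rw [not_NC_iff] at ho ⊢
    intro k
    simp only [swp]
    rw [ho k, ho (k + 1), ho (0 + 1)]
  have h2 : ∀ o : ZMod p → Y I S, ¬ NC o → ¬ NC (swpi o) := by
    intro o ho
    rw [not_NC_iff] at ho ⊢
    intro k
    simp only [swpi]
    rw [ho k, ho (k - 1), ho (0 - 1)]
  constructor
  · intro h; by_contra hc; exact h1 o hc h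
  · intro h; by_contra hc
    have := h2 _ hc
    rw [swpi_swp] at this
    exact this h

lemma wt_swp (A B : I → I → Γ → R) (o : ZMod p → Y I S) :
    wt B A (swp o) = wt A B o := by
  unfold wt
  simp only [swp]
  rw [Finset.prod_mul_distrib, Finset.prod_mul_distrib, mul_comm]
  congr 1
  refine Fintype.prod_equiv (Equiv.addRight 1) _ _ ?_
  intro k
  simp

lemma U_swp (o : ZMod p → Y I S) : U (swp o) = V o := rfl

lemma sum_PsiV {A B : I → I → Γ → R} (h : InvPair A B S) (hp : p ≠ 2)
    {F : Γ → Γ → M} (hF : IsCoc F) (hb : ∀ w, F w w = 0)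
    (l : (ZMod p → Y I S) → ZMod p) (hl : ∀ o, NC o → ∀ c, l (shift c o) = l o + c) :
    ∑ o : ZMod p → Y I S with (NC o ∧ l o = 0), wt A B o • Psi F (V o) = 0 := by
  rw [← sum_PsiU h.symm hp hF hb (fun o => l (swpi o)) (by
    intro o ho c
    show l (swpi (shift c o)) = l (swpi o) + c
    rw [swpi_shift]
    apply hl
    rw [← NC_swp, swp_swpi]; exact ho)]
  refine Finset.sum_nbij' swp swpi ?_ ?_ ?_ ?_ ?_
  · intro o ho
    simp only [Finset.mem_filter, Finset.mem_univ, true_and] at ho ⊢
    rw [NC_swp, swpi_swp]; exact ho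
  · intro o ho
    simp only [Finset.mem_filter, Finset.mem_univ, true_and] at ho ⊢
    rw [← NC_swp, swp_swpi]; exact ho
  · intro o _; exact swpi_swp o
  · intro o _; exact swp_swpi o
  · intro o _
    rw [wt_swp, U_swp]

/-- **The Frobenius relation** -/
theorem frobenius_relation {A B : I → I → Γ → R} (h : InvPair A B S) (hp : p ≠ 2)
    {F : Γ → Γ → M} (hF : IsCoc F) (hb : ∀ w, F w w = 0) :
    DsumR A B S F = DsumR (fun i j g => A i j g ^ p) (fun i j g => B i j g ^ p) S
      (fun w x => F (w ^ p) x) := by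
  rw [← total_sum (p := p) h F]
  rw [← Finset.sum_filter_add_sum_filter_not (s := Finset.univ)
    (p := fun o : ZMod p → Y I S => NC o)]
  obtain ⟨l, hl⟩ := exists_phase (p := p) (Y I S)
  have h1 : ∑ o : ZMod p → Y I S with NC o, wt A B o • Gf F o = 0 := by
    rw [sum_orbit (fun o => NC o) (fun o ho c => NC_shift_of c o ho) l hl]
    have h2 : ∀ o : ZMod p → Y I S, ∑ c : ZMod p, wt A B (shift c o) • Gf F (shift c o) =
        wt A B o • Psi F (U o) - wt A B o • Psi F (V o) := by
      intro o
      simp_rw [wt_shift]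
      rw [← Finset.smul_sum, ← smul_sub]
      congr 1
      rw [show U o = fun k => la o k * lb o k from rfl,
        show V o = fun k => lb o k * la o (k + 1) from rfl, ← sum_coc hF]
      apply Finset.sum_congr rfl
      intro c _
      unfold Gf
      rw [U_shift, W_shift, zero_add]
      congr 1
      simp [la]
    simp_rw [h2]
    rw [Finset.sum_sub_distrib, sum_PsiU h hp hF hb l hl, sum_PsiV h hp hF hb l hl, sub_zero]
  rw [h1, zero_add]
  unfold DsumR
  symm
  refine Finset.sum_bij (fun y _ => (fun _ => y : ZMod p → Y I S)) ?_ ?_ ?_ ?_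
  · intro y _
    simp only [Finset.mem_filter, Finset.mem_univ, true_and]
    rw [not_NC_iff]
    intro k; rfl
  · intro y _ y' _ hyy
    exact congrFun hyy 0
  · intro o ho
    simp only [Finset.mem_filter, Finset.mem_univ, true_and] at ho
    rw [not_NC_iff] at ho
    exact ⟨o 0, Finset.mem_univ _, by funext k; exact (ho k).symm⟩
  · intro y _
    have e1 : wt A B (fun _ => y : ZMod p → Y I S) =
        A y.1 y.2.1 y.2.2.1 ^ p * B y.2.1 y.1 y.2.2.2 ^ p := by
      unfold wt
      rw [Finset.prod_const, Finset.card_univ, ZMod.card, mul_pow]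
    rw [e1]
    congr 1
    unfold Gf
    have e2 : W (U (fun _ => y : ZMod p → Y I S)) 0 = ((y.2.2.1 : Γ) * (y.2.2.2 : Γ)) ^ p := by
      have : U (fun _ => y : ZMod p → Y I S) = fun _ => (y.2.2.1 : Γ) * (y.2.2.2 : Γ) := rfl
      rw [this]
      exact pr_const _ _ _
    rw [e2]
    rfl

end main

end H219.WhC
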