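import Pool.Agent.H219.WhC.Bridge
import Pool.Agent.H219.WhR.Cyc

/-!
# Cyclic one-cocycles on invertible matrices over group rings with commutative coefficients
-/

set_option autoImplicit false
set_option linter.unusedSectionVars false

namespace H219.WhC

open Finset
open Pool.Agent.H23R2 (InvPair IsCoc Y sum_Y_eq isCoc_of_hochschild resS)
open H219.WhR (coc_pow rest rest_coc)
open scoped Classical

lemma smul_p (R : Type*) [CommRing R] {M : Type*} [AddCommGroup M] [Module R M] {p : ℕ}
    [CharP R p] (x : M) : p • x = 0 := by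
  rw [← Nat.cast_smul_eq_nsmul R, CharP.cast_eq_zero, zero_smul]

section charp

variable {R : Type*} [CommRing R] {I : Type*} [Fintype I] {Γ : Type*} [Group Γ]
  {M : Type*} [AddCommGroup M] [Module R M] {p : ℕ} [hp : Fact p.Prime] [CharP R p]

/-- iterated Frobenius relation in characteristic `p` -/
theorem frob_iterC (hp2 : p ≠ 2) {A B : I → I → Γ → R} {S : Finset Γ} (h : InvPair A B S)
    {F : Γ → Γ → M} (hF : IsCoc F) (hb : ∀ (w : Γ) (k : ℕ), F (w ^ p ^ k) w = 0) (k : ℕ) :
    DsumR A B S F = DsumR (fun i j g => A i j g ^ p ^ k) (fun i j g => B i j g ^ p ^ k) S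
      (fun w x => F (w ^ p ^ k) x) := by
  letI : Module (ZMod p) M := AddCommGroup.zmodModule (fun x => smul_p R x)
  induction k with
  | zero => simp
  | succ k ih =>
    have h1 : InvPair (fun i j g => A i j g ^ p ^ k) (fun i j g => B i j g ^ p ^ k) S := by
      have := h.map (iterateFrobenius R p k)
      simpa only [iterateFrobenius_def] using this
    rw [ih, frobenius_relation h1 hp2 (coc_pow hF (p ^ k)) (fun w => hb w k)]
    simp only [← pow_mul, ← pow_succ, ← pow_succ']

end charp

section vanish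

variable {k : Type*} [CommRing k] {I : Type*} [Fintype I] {Γ : Type*} [Group Γ]
  {M : Type*} [AddCommGroup M] [Module k M]

/-- divisibility on cocycles supported on the class of `g`, where `g` is not conjugate to
`g ^ p ^ j` for `j ≥ 1` -/
theorem class_div {a b : I → I → Γ → k} {T : Finset Γ} (h : InvPair a b T) {p : ℕ}
    (hp : p.Prime) (hp2 : p ≠ 2) {g : Γ} (hg : ∀ j, 1 ≤ j → ∀ c : Γ, c * g * c⁻¹ ≠ g ^ p ^ j)
    (htf : ∀ x : M, p • x = 0 → x = 0)
    {F : Γ → Γ → M} (hF : IsCoc F) (hb : ∀ w, F w w = 0) (hsupp : ∀ w x, F w x ≠ 0 → IsConj g w) :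
    ∃ y : M, DsumR a b T F = p • y := by
  haveI : Fact p.Prime := ⟨hp⟩
  have htf' : ∀ (k : ℕ) (x : M), p ^ k • x = 0 → x = 0 := by
    intro k
    induction k with
    | zero => intro x hx; simpa using hx
    | succ k ih =>
      intro x hx
      apply ih
      apply htf
      rw [smul_smul, ← pow_succ', hx]
  have hb' : ∀ (w : Γ) (k : ℕ), F (w ^ p ^ k) w = 0 := by
    intro w k
    apply htf' k
    have h1 : ∀ (m j : ℕ), F (w ^ m) (w ^ j) = j • F (w ^ m) w := by
      intro m j
      induction j with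
      | zero => simp [hF.one]
      | succ j ih =>
        rw [pow_succ, hF, ih, succ_nsmul]
        congr 2
        rw [← zpow_natCast, ← zpow_natCast, ← zpow_neg, ← zpow_add, ← zpow_add]
        congr 1
        ring
    rw [← h1, hb]
  -- for some `k` all the values vanish
  obtain ⟨m, hm⟩ : ∃ m : ℕ, ∀ y : Y I T,
      F (((y.2.2.1 : Γ) * y.2.2.2) ^ p ^ m) y.2.2.1 = 0 := by
    by_contra hcon
    push Not at hcon
    choose y hy using hcon
    have hconj : ∀ k, IsConj g (((y k).2.2.1 * (y k).2.2.2 : Γ) ^ p ^ k) := fun k =>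
      hsupp _ _ (hy k)
    obtain ⟨k, l, hkl, hykl⟩ := Finite.exists_ne_map_eq_of_infinite y
    have key : ∀ k l : ℕ, k < l → y k = y l → False := by
      intro k l hlt he
      have h1 := hconj k
      have h2 := hconj l
      rw [← he] at h2
      set w : Γ := (y k).2.2.1 * (y k).2.2.2 with hw
      obtain ⟨d, hd⟩ := Nat.exists_eq_add_of_lt hlt
      have h3 : w ^ p ^ l = (w ^ p ^ k) ^ p ^ (d + 1) := by
        rw [← pow_mul, ← pow_add]
        congr 2
      obtain ⟨c, hc⟩ := isConj_iff.1 h1
      obtain ⟨e, he'⟩ := isConj_iff.1 h2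
      rw [h3, ← hc, conj_pow] at he'
      apply hg (d + 1) (by omega) (c⁻¹ * e)
      rw [mul_inv_rev, inv_inv]
      calc c⁻¹ * e * g * (e⁻¹ * c) = c⁻¹ * (e * g * e⁻¹) * c := by group
        _ = c⁻¹ * (c * g ^ p ^ (d + 1) * c⁻¹) * c := by rw [he']
        _ = g ^ p ^ (d + 1) := by group
    rcases lt_or_gt_of_ne hkl with hlt | hlt
    · exact key k l hlt hykl
    · exact key l k hlt hykl.symm
  -- pass to `M / p`
  let J : Ideal k := Ideal.span {(p : k)}
  by_cases hJ : J = ⊤
  · obtain ⟨u, hu⟩ : ∃ u : k, (p : k) * u = 1 := by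
      have h1 : (1 : k) ∈ J := hJ ▸ Submodule.mem_top
      obtain ⟨u, hu⟩ := Ideal.mem_span_singleton'.1 h1
      exact ⟨u, by rw [mul_comm]; exact hu⟩
    refine ⟨u • DsumR a b T F, ?_⟩
    rw [← Nat.cast_smul_eq_nsmul k, smul_smul, hu, one_smul]
  haveI : Nontrivial (k ⧸ J) := Ideal.Quotient.nontrivial_iff.2 hJ
  haveI : CharP (k ⧸ J) p := by
    rw [CharP.charP_iff_prime_eq_zero hp]
    have : ((p : ℕ) : k ⧸ J) = Ideal.Quotient.mk J (p : k) := by simp
    rw [this, Ideal.Quotient.eq_zero_iff_mem]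
    exact Ideal.subset_span rfl
  let q : M →ₗ[k] M ⧸ (J • (⊤ : Submodule k M)) := Submodule.mkQ _
  have hqs : ∀ (r : k) (x : M), q (r • x) = (Ideal.Quotient.mk J r) • q x := by
    intro r x
    rfl
  have hqF : IsCoc (fun w x => q (F w x)) := by
    intro w x y
    show q _ = q _ + q _
    rw [← map_add]
    exact congrArg q (hF w x y)
  have h1 := frob_iterC hp2 (h.map (Ideal.Quotient.mk J)) hqF (fun w k => by
    show q _ = 0
    rw [hb', map_zero]) m
  have h2 : q (DsumR a b T F) = 0 := by
    have h3 : q (DsumR a b T F) = DsumR (fun i j g => Ideal.Quotient.mk J (a i j g))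
        (fun i j g => Ideal.Quotient.mk J (b i j g)) T (fun w x => q (F w x)) := by
      unfold DsumR
      rw [map_sum]
      apply Finset.sum_congr rfl
      intro y _
      rw [hqs, map_mul]
    rw [h3, h1]
    unfold DsumR
    apply Finset.sum_eq_zero
    intro y _
    show _ • q (F (((y.2.2.1 : Γ) * y.2.2.2) ^ p ^ m) y.2.2.1) = 0
    rw [hm, map_zero, smul_zero]
  have h4 : DsumR a b T F ∈ J • (⊤ : Submodule k M) := by
    have := (Submodule.Quotient.mk_eq_zero _).1 (show Submodule.Quotient.mk (DsumR a b T F) =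
      (0 : M ⧸ (J • (⊤ : Submodule k M))) from h2)
    exact this
  rw [Submodule.ideal_span_singleton_smul] at h4
  obtain ⟨y, _, hy⟩ := Submodule.mem_smul_pointwise_iff_exists _ _ _ |>.1 h4
  refine ⟨y, ?_⟩
  rw [← hy, Nat.cast_smul_eq_nsmul]

/-- **Cyclic one-cocycles**, coefficient form: only the pairs with product `1` contribute -/
theorem cyc_mainC {a b : I → I → Γ → k} {T : Finset Γ} (h : InvPair a b T)
    {F : Γ → Γ → M} (hF : IsCoc F) (hb : ∀ w, F w w = 0)
    (hG : ∀ g : Γ, g ≠ 1 → (∃ x, F g x ≠ 0) → ∀ x : M, x ≠ 0 → ∃ p : ℕ, p.Prime ∧ p ≠ 2 ∧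
      (∀ y : M, p • y = 0 → y = 0) ∧ (∀ y : M, p • y ≠ x) ∧
      ∀ j, 1 ≤ j → ∀ c : Γ, c * g * c⁻¹ ≠ g ^ p ^ j) :
    DsumR a b T F = DsumR a b T (rest (ConjClasses.mk 1) F) := by
  let cl : Y I T → ConjClasses Γ := fun y => ConjClasses.mk ((y.2.2.1 : Γ) * y.2.2.2)
  set cls : Finset (ConjClasses Γ) := insert (ConjClasses.mk 1) (Finset.univ.image cl) with hcls
  have h1 : DsumR a b T F = ∑ C ∈ cls, DsumR a b T (rest C F) := by
    unfold DsumR
    rw [Finset.sum_comm]
    apply Finset.sum_congr rfl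
    intro y _
    rw [← Finset.smul_sum]
    congr 1
    rw [Finset.sum_eq_single (cl y)]
    · unfold rest
      rw [if_pos rfl]
    · intro C _ hC
      unfold rest
      rw [if_neg (fun hh => hC hh.symm)]
    · intro hh
      exact absurd (Finset.mem_insert_of_mem (Finset.mem_image_of_mem cl (Finset.mem_univ y))) hh
  have h2 : ∀ C : ConjClasses Γ, C ≠ ConjClasses.mk 1 → DsumR a b T (rest C F) = 0 := by
    intro C hC
    obtain ⟨g, rfl⟩ := ConjClasses.exists_rep C
    have hg1 : g ≠ 1 := by
      rintro rfl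
      exact hC rfl
    by_cases hz : ∃ g', IsConj g g' ∧ ∃ x, F g' x ≠ 0
    · obtain ⟨g', hgg', hx⟩ := hz
      have hg1' : g' ≠ 1 := by
        rintro rfl
        rw [isConj_one_left] at hgg'
        exact hg1 hgg'
      by_contra hne
      obtain ⟨p, hp, hp2, htf, hdiv, hc⟩ := hG g' hg1' hx _ hne
      obtain ⟨y, hy⟩ := class_div (F := rest (ConjClasses.mk g) F) h hp hp2 hc htf
        (rest_coc _ hF) (by
          intro w
          unfold rest
          split_ifs
          · exact hb w
          · rfl) (by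
          intro w x hne
          unfold rest at hne
          have h3 : ConjClasses.mk w = ConjClasses.mk g := by
            by_contra hcon
            exact hne (if_neg hcon)
          exact hgg'.symm.trans (ConjClasses.mk_eq_mk_iff_isConj.1 h3).symm)
      exact hdiv y hy.symm
    · push Not at hz
      unfold DsumR
      apply Finset.sum_eq_zero
      intro y _
      have h3 : rest (ConjClasses.mk g) F ((y.2.2.1 : Γ) * y.2.2.2) y.2.2.1 = 0 := by
        unfold rest
        split_ifs with h4
        · exact hz _ (ConjClasses.mk_eq_mk_iff_isConj.1 h4).symm _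
        · rfl
      rw [h3, smul_zero]
  rw [h1, Finset.sum_eq_single_of_mem (ConjClasses.mk 1) (Finset.mem_insert_self _ _)]
  intro C _ hC
  exact h2 C hC

end vanish

end H219.WhC
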